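import Pool.Agent.T9h64.VC.Ring

/-!
# The ring has dimension two
-/

open MvPowerSeries Finsupp

namespace Pool.Agent.T9h64.VC

theorem G_prime (w : Fin 3 → ℕ) : (G w 1).IsPrime := by
  refine ⟨?_, fun {f g} h => ?_⟩
  · rw [Ne, Ideal.eq_top_iff_one, mem_G, weightedOrder_one]
    simp
  · rw [mem_G, weightedOrder_mul] at h
    rw [mem_G, mem_G]
    by_contra hcon
    push Not at hcon
    obtain ⟨h1, h2⟩ := hcon
    simp only [Nat.cast_one, Order.lt_one_iff] at h1 h2
    rw [h1, h2] at h
    simp at h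

theorem J_le_Gw {w : Fin 3 → ℕ} (hw : w 0 = 1) : J ≤ G w 1 := Kl_mono fun d h => by
  left
  have h1 : weight w d < 1 := h
  rw [weight3, hw] at h1
  omega

/-- a prime of the quotient -/
noncomputable def pr (w : Fin 3 → ℕ) (hw : w 0 = 1) : PrimeSpectrum R :=
  ⟨(G w 1).map mk, by
    have := G_prime w
    exact Ideal.map_isPrime_of_surjective mk_surj (by rw [Ideal.mk_ker]; exact J_le_Gw hw)⟩

theorem pr_comap (w : Fin 3 → ℕ) (hw : w 0 = 1) : (pr w hw).asIdeal.comap mk = G w 1 := by
  show ((G w 1).map mk).comap mk = G w 1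
  rw [Ideal.comap_map_of_surjective mk mk_surj, ← RingHom.ker_eq_comap_bot, Ideal.mk_ker]
  exact sup_eq_left.mpr (J_le_Gw hw)

theorem pr_lt {w w' : Fin 3 → ℕ} {hw : w 0 = 1} {hw' : w' 0 = 1} (h : G w 1 < G w' 1) :
    pr w hw < pr w' hw' := by
  refine lt_of_le_not_ge ?_ fun hle => ?_
  · exact Ideal.map_mono h.le
  · have h1 : (pr w' hw').asIdeal.comap mk ≤ (pr w hw).asIdeal.comap mk := Ideal.comap_mono hle
    rw [pr_comap, pr_comap] at h1
    exact absurd h (not_lt_of_ge h1)

theorem G_lt {w w' : Fin 3 → ℕ} (i : Fin 3) (h : ∀ j, w j ≤ w' j) (hi : w i = 0) (hi' : w' i = 1) :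
    G w 1 < G w' 1 := by
  refine lt_of_le_not_ge (Kl_mono fun d hd => ?_) fun hle => ?_
  · have h1 : weight w' d < 1 := hd
    show weight w d < 1
    rw [weight3] at h1 ⊢
    have h2 := Nat.mul_le_mul_left (d 0) (h 0)
    have h3 := Nat.mul_le_mul_left (d 1) (h 1)
    have h4 := Nat.mul_le_mul_left (d 2) (h 2)
    omega
  · have h1 : (X i : P) ∈ G w' 1 := by
      rw [mem_G, X, weightedOrder_monomial_of_ne_zero w' one_ne_zero, weight_single, hi']
      simp
    have h2 := hle h1
    rw [mem_G, X, weightedOrder_monomial_of_ne_zero w one_ne_zero, weight_single, hi] at h2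
    simp at h2

theorem two_le_dim : 2 ≤ ringKrullDim R := by
  have h12 : pr ![1, 0, 0] rfl < pr ![1, 1, 0] rfl := pr_lt (G_lt 1 (by decide) rfl rfl)
  have h23 : pr ![1, 1, 0] rfl < pr ![1, 1, 1] rfl := pr_lt (G_lt 2 (by decide) rfl rfl)
  let s : LTSeries (PrimeSpectrum R) :=
    { length := 2
      toFun := ![pr ![1, 0, 0] rfl, pr ![1, 1, 0] rfl, pr ![1, 1, 1] rfl]
      step := by
        intro i
        fin_cases i
        · exact h12
        · exact h23 }
  exact Order.LTSeries.length_le_krullDim s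

theorem dim_le_two : ringKrullDim R ≤ 2 := by
  classical
  rw [← IsLocalRing.maximalIdeal_height_eq_ringKrullDim]
  obtain ⟨s, hs⟩ : ∃ s : Finset R, s = {mk (X 0 + X 1), mk (X 2)} := ⟨_, rfl⟩
  have hmem : ∀ i, mk (X i) ∈ IsLocalRing.maximalIdeal R := by
    intro i; rw [← map_max]; exact Ideal.mem_map_of_mem _ (X_mem_max i)
  have hmin : IsLocalRing.maximalIdeal R ∈ (Ideal.span (s : Set R)).minimalPrimes := by
    refine ⟨⟨inferInstance, ?_⟩, fun q ⟨hq, hsq⟩ _ => ?_⟩
    · rw [Ideal.span_le, hs]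
      intro x hx
      simp only [Finset.coe_insert, Finset.coe_singleton, Set.mem_insert_iff,
        Set.mem_singleton_iff] at hx
      rcases hx with rfl | rfl
      · rw [map_add]; exact Ideal.add_mem _ (hmem 0) (hmem 1)
      · exact hmem 2
    · have h01 : mk (X 0 + X 1) ∈ q := hsq (Ideal.subset_span (by simp [hs]))
      have h2 : mk (X 2) ∈ q := hsq (Ideal.subset_span (by simp [hs]))
      have hJ : (X 0 * X 1 : P) ∈ J := by
        intro d hd
        rw [X, X, monomial_mul_monomial, coeff_monomial_ne]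
        rintro rfl
        rcases hd with hd | ⟨hd, _⟩
        · simp at hd
        · simp at hd
      have h0 : mk (X 0) ∈ q := by
        have : mk (X 0) ^ 2 ∈ q := by
          have e : mk (X 0) ^ 2 = mk (X 0) * mk (X 0 + X 1) := by
            rw [← map_pow, ← map_mul, Ideal.Quotient.eq]
            have : (X 0 ^ 2 - X 0 * (X 0 + X 1) : P) = -(X 0 * X 1) := by ring
            rw [this]; exact neg_mem hJ
          rw [e]; exact Ideal.mul_mem_left _ _ h01
        exact hq.mem_of_pow_mem 2 this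
      have h1 : mk (X 1) ∈ q := by
        have : mk (X 1) = mk (X 0 + X 1) - mk (X 0) := by rw [map_add]; ring
        rw [this]; exact Ideal.sub_mem _ h01 h0
      rw [← map_max, Ideal.map_le_iff_le_comap]
      intro f hf
      have hf' : f ∈ G 1 (0 + 1) := by rw [← max_pow]; simpa using hf
      obtain ⟨g, _, rfl⟩ := decomp hf'
      rw [Ideal.mem_comap, map_sum]
      refine Ideal.sum_mem _ fun i _ => ?_
      rw [map_mul]
      refine Ideal.mul_mem_right _ _ ?_
      fin_cases i
      · exact h0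
      · exact h1
      · exact h2
  have h := Ideal.height_le_card_of_mem_minimalPrimes_span_finset hmin
  have hc : s.card ≤ 2 := by rw [hs]; exact Finset.card_le_two
  have h3 : (IsLocalRing.maximalIdeal R).height ≤ (2 : ℕ∞) :=
    h.trans (by exact_mod_cast hc)
  exact WithBot.coe_le_coe.mpr h3

theorem dim_eq : ringKrullDim R = ((2 : ℕ) : WithBot ℕ∞) :=
  le_antisymm dim_le_two two_le_dim

end Pool.Agent.T9h64.VC
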