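import Pool.Agent.T9h64.VC.Ser

/-!
# The ring `ℚ[[x, y, z]] / (xy, xz)`
-/

open MvPowerSeries Finsupp

namespace Pool.Agent.T9h64.VC

/-- the ring -/
abbrev R := P ⧸ J

/-- the quotient map -/
noncomputable abbrev mk : P →+* R := Ideal.Quotient.mk J

theorem mk_surj : Function.Surjective mk := Ideal.Quotient.mk_surjective

theorem J_const {f : P} (hf : f ∈ J) : constantCoeff f = 0 := by
  rw [← coeff_zero_eq_constantCoeff_apply]
  exact hf 0 (Or.inl rfl)

instance : Nontrivial R := by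
  rw [Ideal.Quotient.nontrivial_iff, Ne, Ideal.eq_top_iff_one]
  intro h
  have := J_const h
  simp at this

instance : IsLocalRing R := IsLocalRing.of_surjective' mk mk_surj

instance : IsNoetherianRing R := inferInstance

theorem map_max : (IsLocalRing.maximalIdeal P).map mk = IsLocalRing.maximalIdeal R := by
  apply le_antisymm
  · rw [Ideal.map_le_iff_le_comap]
    intro f hf
    rw [Ideal.mem_comap, IsLocalRing.mem_maximalIdeal, mem_nonunits_iff]
    intro hu
    obtain ⟨g, hg⟩ := hu.exists_right_inv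
    obtain ⟨g, rfl⟩ := mk_surj g
    rw [← map_mul, ← map_one mk, Ideal.Quotient.eq] at hg
    have h1 := J_const hg
    rw [map_sub, map_mul, map_one, mem_max.mp hf, zero_mul] at h1
    norm_num at h1
  · intro x hx
    obtain ⟨f, rfl⟩ := mk_surj x
    refine Ideal.mem_map_of_mem _ ?_
    rw [IsLocalRing.mem_maximalIdeal, mem_nonunits_iff] at hx ⊢
    exact fun h => hx (h.map mk)

theorem mem_pow {n : ℕ} {f : P} : mk f ∈ IsLocalRing.maximalIdeal R ^ n ↔ f ∈ K n := by
  rw [← map_max, ← Ideal.map_pow, ← Ideal.mem_comap,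
    Ideal.comap_map_of_surjective mk mk_surj, ← RingHom.ker_eq_comap_bot, Ideal.mk_ker, max_pow_sup]

/-! ### Reducedness of the completion -/

theorem sq_mem {n : ℕ} {x : R} (h : x ^ 2 ∈ IsLocalRing.maximalIdeal R ^ (2 * n)) :
    x ∈ IsLocalRing.maximalIdeal R ^ n := by
  obtain ⟨f, rfl⟩ := mk_surj x
  rw [← map_pow, mem_pow] at h
  rw [mem_pow]
  have key : ∀ w, f ^ 2 ∈ G w (2 * n) → f ∈ G w n := by
    intro w hw
    rw [mem_G] at hw ⊢
    rw [pow_two, weightedOrder_mul] at hw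
    cases hv : weightedOrder w f with
    | top => exact le_top
    | coe v =>
      rw [hv] at hw
      have : 2 * n ≤ v + v := by exact_mod_cast hw
      have : n ≤ v := by omega
      exact_mod_cast this
  exact mem_K_of (key _ (K_le_G1 le_rfl h)) (key _ (K_le_G2 le_rfl h))

theorem completion_reduced : IsReduced (AdicCompletion (IsLocalRing.maximalIdeal R) R) := by
  rw [isReduced_iff_pow_one_lt 2 (by norm_num)]
  intro x hx
  induction x using AdicCompletion.induction_on with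
  | h a =>
  apply AdicCompletion.ext_evalₐ
  intro n
  rw [map_zero, AdicCompletion.evalₐ_mk, Ideal.Quotient.eq_zero_iff_mem]
  have h1 : (AdicCompletion.evalₐ (IsLocalRing.maximalIdeal R) (2 * n))
      ((AdicCompletion.mk (IsLocalRing.maximalIdeal R) R a) ^ 2) = 0 := by rw [hx, map_zero]
  rw [map_pow, AdicCompletion.evalₐ_mk, ← map_pow, Ideal.Quotient.eq_zero_iff_mem] at h1
  have h2 := sq_mem h1
  have h3 : a.1 n ≡ a.1 (2 * n) [SMOD (IsLocalRing.maximalIdeal R ^ n • ⊤ : Submodule R R)] :=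
    a.2 (by omega)
  rw [SModEq.sub_mem, smul_eq_mul, Ideal.mul_top] at h3
  have h4 : a.1 n = (a.1 n - a.1 (2 * n)) + a.1 (2 * n) := by ring
  rw [h4]
  exact Ideal.add_mem _ h3 h2

/-! ### Integral closures of powers -/

theorem G_mul {w : Fin 3 → ℕ} {s t : ℕ} {f g : P} (hf : f ∈ G w s) (hg : g ∈ G w t) :
    f * g ∈ G w (s + t) := by
  rw [mem_G] at hf hg ⊢
  rw [weightedOrder_mul]
  push_cast
  exact add_le_add hf hg

theorem G_anti {w : Fin 3 → ℕ} {s t : ℕ} (h : s ≤ t) : G w t ≤ G w s :=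
  Kl_mono fun _ hd => lt_of_lt_of_le hd h

theorem wo_pow {w : Fin 3 → ℕ} {f : P} {v : ℕ} (h : weightedOrder w f = v) (k : ℕ) :
    weightedOrder w (f ^ k) = (k * v : ℕ) := by
  induction k with
  | zero => simp
  | succ k ih =>
    rw [pow_succ, weightedOrder_mul, ih, h, Nat.succ_mul]
    push_cast; rfl

theorem int_key {w : Fin 3 → ℕ} {n k : ℕ} (hk : 0 < k) (hJ : J ≤ G w (n * k))
    (hK : ∀ t, t ≤ n * k → K t ≤ G w t) {f : P} {A : ℕ → P} (hA : ∀ j, A j ∈ K (n * j))
    (h : f ^ k + ∑ j ∈ Finset.range k, A (k - j) * f ^ j ∈ J) : f ∈ G w n := by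
  by_contra hcon
  rw [mem_G] at hcon
  obtain ⟨v, hv⟩ : ∃ v : ℕ, weightedOrder w f = v := by
    cases hv : weightedOrder w f with
    | top => exact absurd le_top (hv ▸ hcon)
    | coe v => exact ⟨v, rfl⟩
  have hvn : v < n := by
    rw [hv] at hcon
    have : ¬ n ≤ v := fun h => hcon (by exact_mod_cast h)
    omega
  have h1 : f ^ k ∈ G w (k * v + 1) := by
    have h2 : ∑ j ∈ Finset.range k, A (k - j) * f ^ j ∈ G w (k * v + 1) := by
      refine Ideal.sum_mem _ fun j hj => ?_
      rw [Finset.mem_range] at hj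
      have h3 : A (k - j) ∈ G w (n * (k - j)) :=
        hK _ (Nat.mul_le_mul_left n (Nat.sub_le k j)) (hA _)
      have h4 : f ^ j ∈ G w (j * v) := by
        rw [mem_G, wo_pow hv]
      refine G_anti ?_ (G_mul h3 h4)
      obtain ⟨c, rfl⟩ : ∃ c, k = j + c := ⟨k - j, by omega⟩
      rw [Nat.add_sub_cancel_left]
      have h5 : (v + 1) * c ≤ n * c := Nat.mul_le_mul_right c hvn
      have h6 : 1 ≤ c := by omega
      have h7 : (j + c) * v = j * v + c * v := by ring
      have h8 : (v + 1) * c = c * v + c := by ring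
      omega
    have h9 : n * k ≥ k * v + 1 := by
      have h5 : k * (v + 1) ≤ k * n := Nat.mul_le_mul_left k hvn
      have h6 : k * (v + 1) = k * v + k := by ring
      have h7 : n * k = k * n := by ring
      omega
    have h10 := (G w (k * v + 1)).sub_mem (G_anti h9 (hJ h)) h2
    rwa [add_sub_cancel_right] at h10
  rw [mem_G, wo_pow hv] at h1
  have : k * v + 1 ≤ k * v := by exact_mod_cast h1
  omega

theorem int_mem {n : ℕ} {x : R} {k : ℕ} (hk : 0 < k) {a : ℕ → R}
    (ha : ∀ j, a j ∈ (IsLocalRing.maximalIdeal R ^ n) ^ j)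
    (h : x ^ k + ∑ j ∈ Finset.range k, a (k - j) * x ^ j = 0) :
    x ∈ IsLocalRing.maximalIdeal R ^ n := by
  obtain ⟨f, rfl⟩ := mk_surj x
  choose A hA using fun j => mk_surj (a j)
  have hA' : ∀ j, A j ∈ K (n * j) := by
    intro j
    rw [← mem_pow, hA, pow_mul]
    exact ha j
  have h' : f ^ k + ∑ j ∈ Finset.range k, A (k - j) * f ^ j ∈ J := by
    rw [← Ideal.Quotient.eq_zero_iff_mem, map_add, map_pow, map_sum, ← h]
    simp only [map_mul, map_pow, hA]
  rw [mem_pow]
  exact mem_K_of (int_key hk (J_le_G1 _) (fun t ht => K_le_G1 ht) hA' h')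
    (int_key hk (J_le_G2 _) (fun t ht => K_le_G2 ht) hA' h')

theorem mem_pow_iff (n : ℕ) (x : R) : x ∈ IsLocalRing.maximalIdeal R ^ n ↔
    ∃ k : ℕ, 0 < k ∧ ∃ a : ℕ → R, (∀ j, a j ∈ (IsLocalRing.maximalIdeal R ^ n) ^ j) ∧
      x ^ k + ∑ j ∈ Finset.range k, a (k - j) * x ^ j = 0 := by
  constructor
  · intro hx
    refine ⟨1, one_pos, fun j => if j = 1 then -x else 0, fun j => ?_, ?_⟩
    · by_cases hj : j = 1
      · subst hj; simpa using hx
      · simp [hj]
    · simp
  · rintro ⟨k, hk, a, ha, h⟩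
    exact int_mem hk ha h

/-! ### Lengths -/

/-- index set of a basis of `R / m ^ (n + 1)` -/
abbrev Ix (n : ℕ) := (Σ s : Fin (n + 1), Fin (s.1 + 1)) ⊕ Fin n

/-- exponents of the basis -/
noncomputable def ex (n : ℕ) : Ix n → (Fin 3 →₀ ℕ)
  | Sum.inl ⟨s, i⟩ => single 1 i.1 + single 2 (s.1 - i.1)
  | Sum.inr j => single 0 (j.1 + 1)

theorem ex_inj (n : ℕ) : Function.Injective (ex n) := by
  rintro (⟨⟨s, hs⟩, ⟨i, hi⟩⟩ | ⟨j, hj⟩) (⟨⟨s', hs'⟩, ⟨i', hi'⟩⟩ | ⟨j', hj'⟩) h
  · have h1 := DFunLike.congr_fun h 1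
    have h2 := DFunLike.congr_fun h 2
    simp [ex] at h1 h2 hi hi'
    subst h1
    have : s = s' := by omega
    subst this
    rfl
  · have h0 := DFunLike.congr_fun h 0
    simp [ex] at h0
  · have h0 := DFunLike.congr_fun h 0
    simp [ex] at h0
  · have h0 := DFunLike.congr_fun h 0
    simp [ex] at h0
    subst h0
    rfl

theorem ex_range (n : ℕ) (d : Fin 3 →₀ ℕ) :
    d ∈ Set.range (ex n) ↔ d ∈ Dl ∧ degree d < n + 1 := by
  constructor
  · rintro ⟨⟨⟨s, hs⟩, ⟨i, hi⟩⟩ | ⟨j, hj⟩, rfl⟩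
    · refine ⟨Or.inl ?_, ?_⟩
      · simp [ex]
      · rw [degree3]; simp [ex] at hi ⊢; omega
    · refine ⟨Or.inr ⟨?_, ?_⟩, ?_⟩
      · simp [ex]
      · simp [ex]
      · rw [degree3]; simp [ex]; omega
  · rintro ⟨hd, hdeg⟩
    rw [degree3] at hdeg
    by_cases h0 : d 0 = 0
    · refine ⟨Sum.inl ⟨⟨d 1 + d 2, by omega⟩, ⟨d 1, by simp⟩⟩, ?_⟩
      ext i
      fin_cases i
      · simp [ex, h0]
      · simp [ex]
      · simp [ex]
    · rcases hd with hd | ⟨h1, h2⟩
      · exact absurd hd h0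
      · refine ⟨Sum.inr ⟨d 0 - 1, by omega⟩, ?_⟩
        ext i
        fin_cases i
        · simp [ex]; omega
        · simp [ex, h1]
        · simp [ex, h2]

/-- the coefficients -/
noncomputable def cf (n : ℕ) : P →ₗ[ℚ] (Ix n → ℚ) := LinearMap.pi fun i => coeff (ex n i)

theorem cf_ker (n : ℕ) : LinearMap.ker (cf n) = (K (n + 1)).restrictScalars ℚ := by
  ext f
  rw [LinearMap.mem_ker, Submodule.restrictScalars_mem]
  constructor
  · intro h d hd
    obtain ⟨i, rfl⟩ := (ex_range n d).mpr hd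
    exact congrFun h i
  · intro h
    funext i
    exact h _ ((ex_range n _).mp ⟨i, rfl⟩)

theorem cf_surj (n : ℕ) : Function.Surjective (cf n) := by
  classical
  intro c
  refine ⟨∑ i, monomial (ex n i) (c i), ?_⟩
  funext j
  show coeff (ex n j) (∑ i, monomial (ex n i) (c i)) = c j
  rw [map_sum, Finset.sum_eq_single j]
  · rw [coeff_monomial_same]
  · intro i _ hi
    rw [coeff_monomial_ne]
    exact fun h => hi (ex_inj n h).symm
  · intro h; exact absurd (Finset.mem_univ j) h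

/-- the quotient map to `R / m ^ (n + 1)` as a linear map over `ℚ` -/
noncomputable def qm (n : ℕ) : P →ₗ[ℚ] (R ⧸ IsLocalRing.maximalIdeal R ^ (n + 1)) :=
  ((Ideal.Quotient.mkₐ ℚ (IsLocalRing.maximalIdeal R ^ (n + 1))).comp
    (Ideal.Quotient.mkₐ ℚ J)).toLinearMap

theorem qm_ker (n : ℕ) : LinearMap.ker (qm n) = (K (n + 1)).restrictScalars ℚ := by
  ext f
  rw [LinearMap.mem_ker, Submodule.restrictScalars_mem, ← mem_pow, ← Ideal.Quotient.eq_zero_iff_mem]
  rfl

theorem qm_surj (n : ℕ) : Function.Surjective (qm n) :=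
  (Ideal.Quotient.mk_surjective).comp mk_surj

/-- `R / m ^ (n + 1)` as a vector space -/
noncomputable def equivIx (n : ℕ) : (R ⧸ IsLocalRing.maximalIdeal R ^ (n + 1)) ≃ₗ[ℚ] (Ix n → ℚ) :=
  ((qm n).quotKerEquivOfSurjective (qm_surj n)).symm.trans
    ((Submodule.quotEquivOfEq _ _ ((qm_ker n).trans (cf_ker n).symm)).trans
      ((cf n).quotKerEquivOfSurjective (cf_surj n)))

theorem card_Ix (n : ℕ) : Fintype.card (Ix n) = (n + 2).choose 2 + n := by
  rw [Fintype.card_sum, Fintype.card_sigma]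
  simp only [Fintype.card_fin]
  congr 1
  rw [Fin.sum_univ_eq_sum_range (fun s => s + 1) (n + 1)]
  induction n with
  | zero => rfl
  | succ n ih =>
    rw [Finset.sum_range_succ, ih, Nat.choose_succ_succ (n + 2) 1]
    simp
    omega

theorem length_field (M : Type) [AddCommGroup M] [Module R M] [Module ℚ M] [IsScalarTower ℚ R M]:
    Module.length ℚ M = Module.length R M := by
  rw [IsLocalRing.length_restrictScalars ℚ R M]
  have h1 : Function.Surjective (algebraMap (IsLocalRing.ResidueField ℚ)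
      (IsLocalRing.ResidueField R)) := by
    intro x
    obtain ⟨r, rfl⟩ := IsLocalRing.residue_surjective x
    obtain ⟨f, rfl⟩ := mk_surj r
    refine ⟨IsLocalRing.residue ℚ (constantCoeff f), ?_⟩
    have h2 : algebraMap (IsLocalRing.ResidueField ℚ) (IsLocalRing.ResidueField R)
        (IsLocalRing.residue ℚ (constantCoeff f)) =
        IsLocalRing.residue R (algebraMap ℚ R (constantCoeff f)) := rfl
    rw [h2, ← sub_eq_zero, ← map_sub, IsLocalRing.residue_eq_zero_iff]
    have h3 : algebraMap ℚ R (constantCoeff f) - mk f = mk (C (constantCoeff f) - f) := by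
      rw [map_sub]; rfl
    rw [h3, ← map_max]
    refine Ideal.mem_map_of_mem _ ?_
    rw [mem_max, map_sub, constantCoeff_C, sub_self]
  have h2 : Module.length (IsLocalRing.ResidueField ℚ) (IsLocalRing.ResidueField R) = 1 := by
    rw [Module.length_eq_of_surjective (M := IsLocalRing.ResidueField R) h1]
    exact Module.length_eq_one _ _
  rw [h2, mul_one]

theorem length_eq (n : ℕ) :
    Module.length R (R ⧸ IsLocalRing.maximalIdeal R ^ (n + 1)) = (((n + 2).choose 2 + n : ℕ) : ℕ∞) := by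
  rw [← length_field, (equivIx n).length_eq, ← card_Ix]
  rw [Module.length_eq_finrank, Module.finrank_fintype_fun_eq_card]

end Pool.Agent.T9h64.VC
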