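import Mathlib

/-!
# Ideals of power series in three variables which are given by lower sets of exponents
-/

open MvPowerSeries Finsupp

namespace Pool.Agent.T9h64.VC

abbrev P := MvPowerSeries (Fin 3) ℚ

/-- the series without terms in the lower set `D` -/
def Kl (D : Set (Fin 3 →₀ ℕ)) (hD : IsLowerSet D) : Ideal P where
  carrier := {f | ∀ d ∈ D, coeff d f = 0}
  add_mem' {f g} hf hg d hd := by rw [map_add, hf d hd, hg d hd, add_zero]
  zero_mem' d _ := by rw [map_zero]
  smul_mem' c f hf d hd := by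
    rw [smul_eq_mul, coeff_mul]
    refine Finset.sum_eq_zero fun p hp => ?_
    have h1 : p.2 ≤ d := by
      rw [Finset.HasAntidiagonal.mem_antidiagonal] at hp
      rw [← hp]; exact le_add_self
    rw [hf p.2 (hD h1 hd), mul_zero]

theorem mem_Kl {D : Set (Fin 3 →₀ ℕ)} {hD : IsLowerSet D} {f : P} :
    f ∈ Kl D hD ↔ ∀ d ∈ D, coeff d f = 0 := Iff.rfl

theorem Kl_mono {D D' : Set (Fin 3 →₀ ℕ)} {hD : IsLowerSet D} {hD' : IsLowerSet D'}
    (h : D ⊆ D') : Kl D' hD' ≤ Kl D hD := fun _ hf d hd => hf d (h hd)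

/-- exponents of the monomials which are not multiples of `xy`, `xz` -/
def Dl : Set (Fin 3 →₀ ℕ) := {d | d 0 = 0 ∨ (d 1 = 0 ∧ d 2 = 0)}

theorem Dl_lower : IsLowerSet Dl := by
  intro a b h ha
  have h0 := h 0
  have h1 := h 1
  have h2 := h 2
  rcases ha with ha | ⟨ha, hb⟩
  · left; omega
  · right; constructor <;> omega

/-- the ideal `(xy, xz)` -/
def J : Ideal P := Kl Dl Dl_lower

/-- series whose terms of degree less than `n` are in `(xy, xz)` -/
def K (n : ℕ) : Ideal P := Kl {d | d ∈ Dl ∧ degree d < n} (by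
  rintro a b h ⟨h1, h2⟩
  exact ⟨Dl_lower h h1, lt_of_le_of_lt (Finsupp.degree_mono h) h2⟩)

/-- series of weighted order at least `t` -/
def G (w : Fin 3 → ℕ) (t : ℕ) : Ideal P := Kl {d | weight w d < t} (by
  intro a b h h1
  have h2 : weight w a < t := h1
  refine lt_of_le_of_lt ?_ h2
  obtain ⟨c, rfl⟩ := exists_add_of_le h
  rw [map_add]; exact le_self_add)

theorem mem_G {w : Fin 3 → ℕ} {t : ℕ} {f : P} : f ∈ G w t ↔ (t : ℕ∞) ≤ weightedOrder w f := by
  constructor
  · intro h; exact nat_le_weightedOrder w h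
  · intro h d hd
    refine coeff_eq_zero_of_lt_weightedOrder w (lt_of_lt_of_le ?_ h)
    exact_mod_cast hd

theorem weight3 (w : Fin 3 → ℕ) (d : Fin 3 →₀ ℕ) :
    weight w d = d 0 * w 0 + d 1 * w 1 + d 2 * w 2 := by
  rw [weight_apply, Finsupp.sum_fintype _ _ (by simp), Fin.sum_univ_three]
  simp

theorem degree3 (d : Fin 3 →₀ ℕ) : degree d = d 0 + d 1 + d 2 := by
  rw [degree_eq_sum, Fin.sum_univ_three]

theorem J_le_K (n : ℕ) : J ≤ K n := Kl_mono fun _ h => h.1

theorem J_le_G1 (N : ℕ) : J ≤ G ![N, 1, 1] N := Kl_mono fun d h => by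
  left
  by_contra h0
  have h1 : weight ![N, 1, 1] d < N := h
  rw [weight3] at h1
  have : N ≤ d 0 * N := Nat.le_mul_of_pos_left N (Nat.pos_of_ne_zero h0)
  simp at h1
  omega

theorem J_le_G2 (N : ℕ) : J ≤ G ![1, N, N] N := Kl_mono fun d h => by
  right
  have h1 : weight ![1, N, N] d < N := h
  rw [weight3] at h1
  simp at h1
  constructor
  · by_contra h0
    have : N ≤ d 1 * N := Nat.le_mul_of_pos_left N (Nat.pos_of_ne_zero h0)
    omega
  · by_contra h0
    have : N ≤ d 2 * N := Nat.le_mul_of_pos_left N (Nat.pos_of_ne_zero h0)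
    omega

theorem K_le_G1 {n N : ℕ} (hN : n ≤ N) : K n ≤ G ![N, 1, 1] n := Kl_mono fun d h => by
  have h1 : weight ![N, 1, 1] d < n := h
  rw [weight3] at h1
  simp at h1
  have h0 : d 0 = 0 := by
    by_contra h0
    have : N ≤ d 0 * N := Nat.le_mul_of_pos_left N (Nat.pos_of_ne_zero h0)
    omega
  refine ⟨Or.inl h0, ?_⟩
  rw [degree3]
  omega

theorem K_le_G2 {n N : ℕ} (hN : n ≤ N) : K n ≤ G ![1, N, N] n := Kl_mono fun d h => by
  have h1 : weight ![1, N, N] d < n := h
  rw [weight3] at h1
  simp at h1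
  have h0 : d 1 = 0 := by
    by_contra h0
    have : N ≤ d 1 * N := Nat.le_mul_of_pos_left N (Nat.pos_of_ne_zero h0)
    omega
  have h2 : d 2 = 0 := by
    by_contra h0
    have : N ≤ d 2 * N := Nat.le_mul_of_pos_left N (Nat.pos_of_ne_zero h0)
    omega
  refine ⟨Or.inr ⟨h0, h2⟩, ?_⟩
  rw [degree3]
  omega

theorem mem_K_of {n N N' : ℕ} {f : P} (h1 : f ∈ G ![N, 1, 1] n) (h2 : f ∈ G ![1, N', N'] n) :
    f ∈ K n := by
  rintro d ⟨hd, hdeg⟩
  rw [degree3] at hdeg
  rcases hd with hd | ⟨hd, hd'⟩
  · refine h1 d ?_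
    show weight ![N, 1, 1] d < n
    rw [weight3]
    simp [hd]
    omega
  · refine h2 d ?_
    show weight ![1, N', N'] d < n
    rw [weight3]
    simp [hd, hd']
    omega

/-- the maximal ideal -/
theorem mem_max {f : P} : f ∈ IsLocalRing.maximalIdeal P ↔ constantCoeff f = 0 := by
  rw [IsLocalRing.mem_maximalIdeal, mem_nonunits_iff, MvPowerSeries.isUnit_iff_constantCoeff,
    isUnit_iff_ne_zero, not_not]

theorem X_mem_max (i : Fin 3) : (X i : P) ∈ IsLocalRing.maximalIdeal P := by
  rw [mem_max, constantCoeff_X]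

/-- one step of the decomposition -/
theorem decomp {n : ℕ} {f : P} (hf : f ∈ G 1 (n + 1)) :
    ∃ g : Fin 3 → P, (∀ i, g i ∈ G 1 n) ∧ f = ∑ i, X i * g i := by
  classical
  obtain ⟨g, hg⟩ : ∃ g : Fin 3 → P, ∀ i e, coeff e (g i) =
      if (∀ j, j < i → e j = 0) then coeff (e + single i 1) f else 0 :=
    ⟨fun i e => if (∀ j, j < i → e j = 0) then coeff (e + single i 1) f else 0, fun _ _ => rfl⟩
  refine ⟨g, fun i e he => ?_, ?_⟩
  · rw [hg]
    split_ifs with h
    · refine hf _ ?_
      have he' : weight 1 e < n := he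
      show weight 1 (e + single i 1) < n + 1
      rw [map_add]
      have : weight (1 : Fin 3 → ℕ) (single i 1) = 1 := by
        rw [weight_single]; simp
      omega
    · rfl
  · ext d
    rw [map_sum]
    have hX : ∀ i, coeff d (X i * g i) = if single i 1 ≤ d ∧ (∀ j, j < i → d j = 0) then
        coeff d f else 0 := by
      intro i
      rw [X, coeff_monomial_mul]
      by_cases h1 : single i 1 ≤ d
      · rw [if_pos h1, one_mul, hg]
        have h2 : (∀ j, j < i → (d - single i 1 : Fin 3 →₀ ℕ) j = 0) ↔ ∀ j, j < i → d j = 0 := by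
          refine forall_congr' fun j => forall_congr' fun hj => ?_
          rw [tsub_apply, single_eq_of_ne (ne_of_gt hj).symm, tsub_zero]
        by_cases h3 : ∀ j, j < i → d j = 0
        · rw [if_pos (h2.mpr h3), if_pos ⟨h1, h3⟩, tsub_add_cancel_of_le h1]
        · rw [if_neg (fun h => h3 (h2.mp h)), if_neg (fun h => h3 h.2)]
      · rw [if_neg h1, if_neg (fun h => h1 h.1)]
    simp only [hX]
    by_cases hd : d = 0
    · subst hd
      have : coeff 0 f = 0 := hf 0 (by show weight 1 (0 : Fin 3 →₀ ℕ) < n + 1; simp)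
      simp [this]
    · have hex : ∃ i : Fin 3, d i ≠ 0 := by
        by_contra h
        push Not at h
        exact hd (Finsupp.ext h)
      obtain ⟨i, hi, hmin⟩ : ∃ i : Fin 3, d i ≠ 0 ∧ ∀ j, j < i → d j = 0 := by
        have hs : (Finset.univ.filter fun i : Fin 3 => d i ≠ 0).Nonempty :=
          hex.imp fun i hi => by simp [hi]
        refine ⟨Finset.min' _ hs, ?_, fun j hj => ?_⟩
        · have := Finset.min'_mem _ hs
          simpa using this
        · by_contra hcon
          exact absurd (Finset.min'_le _ j (by simp [hcon])) (not_le.mpr hj)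
      rw [Finset.sum_eq_single i]
      · rw [if_pos]
        refine ⟨?_, hmin⟩
        rw [single_le_iff]
        exact Nat.one_le_iff_ne_zero.mpr hi
      · intro j _ hj
        rw [if_neg]
        rintro ⟨h1, h2⟩
        rw [single_le_iff] at h1
        rcases lt_or_gt_of_ne hj with h | h
        · have := hmin j h; omega
        · exact hi (h2 i h)
      · intro h; exact absurd (Finset.mem_univ i) h

theorem weight_eq_degree (d : Fin 3 →₀ ℕ) : weight (1 : Fin 3 → ℕ) d = degree d := by
  rw [weight3, degree3]; simp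

theorem max_pow (n : ℕ) : IsLocalRing.maximalIdeal P ^ n = G 1 n := by
  induction n with
  | zero =>
    rw [pow_zero, Ideal.one_eq_top]
    symm
    rw [Ideal.eq_top_iff_one]
    intro d hd
    exact absurd hd (Nat.not_lt_zero _)
  | succ n ih =>
    apply le_antisymm
    · rw [pow_succ, ih, Ideal.mul_le]
      intro f hf g hg
      rw [mem_G] at hf ⊢
      have h1 : (1 : ℕ∞) ≤ weightedOrder 1 g := by
        have : g ∈ G 1 1 := by
          intro d hd
          have hd' : weight (1 : Fin 3 → ℕ) d < 1 := hd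
          rw [weight_eq_degree] at hd'
          have : d = 0 := by
            rw [← Finsupp.degree_eq_zero_iff]; omega
          rw [this, coeff_zero_eq_constantCoeff_apply]
          exact mem_max.mp hg
        simpa using mem_G.mp this
      rw [weightedOrder_mul]
      push_cast
      exact add_le_add hf h1
    · intro f hf
      obtain ⟨g, hg, rfl⟩ := decomp hf
      refine Ideal.sum_mem _ fun i _ => ?_
      rw [pow_succ', ih]
      exact Ideal.mul_mem_mul (X_mem_max i) (hg i)

theorem max_pow_sup (n : ℕ) : IsLocalRing.maximalIdeal P ^ n ⊔ J = K n := by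
  apply le_antisymm
  · refine sup_le ?_ (J_le_K n)
    rw [max_pow]
    refine Kl_mono fun d h => ?_
    show weight 1 d < n
    rw [weight_eq_degree]
    exact h.2
  · intro f hf
    classical
    obtain ⟨g, hg⟩ : ∃ g : P, ∀ d, coeff d g = if degree d < n then 0 else coeff d f :=
      ⟨fun d => if degree d < n then 0 else coeff d f, fun _ => rfl⟩
    have : f = g + (f - g) := by ring
    rw [this]
    refine Ideal.add_mem _ (Ideal.mem_sup_left ?_) (Ideal.mem_sup_right ?_)
    · rw [max_pow]
      intro d hd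
      have hd' : weight (1 : Fin 3 → ℕ) d < n := hd
      rw [weight_eq_degree] at hd'
      rw [hg, if_pos hd']
    · intro d hd
      rw [map_sub, hg]
      split_ifs with h
      · rw [sub_zero]; exact hf d ⟨hd, h⟩
      · rw [sub_self]

end Pool.Agent.T9h64.VC
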